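import Mathlib

/-!
# Deleting an edge never raises the energy of a graph by exactly 2
-/

set_option autoImplicit false

open Matrix

namespace Pool.Agent.N242.Known.EnergyIncrease

/-- The adjacency matrix of a simple graph over the reals is symmetric. -/
theorem adj_hermitian {V : Type*} [Fintype V] [DecidableEq V] (G : SimpleGraph V)
    [DecidableRel G.Adj] : (G.adjMatrix ℝ).IsHermitian := by
  rw [Matrix.IsHermitian, Matrix.conjTranspose_eq_transpose_of_trivial]
  exact G.isSymm_adjMatrix

/-- The energy of a finite graph: the sum of the absolute values of the eigenvalues of its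
adjacency matrix, counted with multiplicity. -/
noncomputable def energy {V : Type*} [Fintype V] [DecidableEq V] (G : SimpleGraph V)
    [DecidableRel G.Adj] : ℝ :=
  ∑ i, |(adj_hermitian G).eigenvalues i|

section

variable {n : Type*} [Fintype n] [DecidableEq n]

lemma orth_entry_le {T : Matrix n n ℝ} (hT : T * Tᵀ = 1) (i j : n) : T i j ^ 2 ≤ 1 := by
  have h := congrFun (congrFun hT i) i
  rw [Matrix.mul_apply] at h
  simp only [Matrix.transpose_apply, Matrix.one_apply_eq] at h
  rw [← h, sq]
  exact Finset.single_le_sum (f := fun k => T i k * T i k)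
    (fun k _ => mul_self_nonneg _) (Finset.mem_univ j)

lemma orth_row_zero {T : Matrix n n ℝ} (hT : T * Tᵀ = 1) {i j : n} (h1 : T i j ^ 2 = 1)
    {k : n} (hk : k ≠ j) : T i k = 0 := by
  have h := congrFun (congrFun hT i) i
  rw [Matrix.mul_apply] at h
  simp only [Matrix.transpose_apply, Matrix.one_apply_eq] at h
  have h2 : T i j * T i j + T i k * T i k ≤ ∑ x, T i x * T i x := by
    rw [← Finset.sum_pair (Ne.symm hk) (f := fun x => T i x * T i x)]
    exact Finset.sum_le_sum_of_subset_of_nonneg (Finset.subset_univ _)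
      (fun x _ _ => mul_self_nonneg _)
  rw [h] at h2
  have h3 : T i k * T i k ≤ 0 := by nlinarith
  exact mul_self_eq_zero.1 (le_antisymm h3 (mul_self_nonneg _))

lemma exists_diag {A : Matrix n n ℝ} (hA : A.IsHermitian) :
    ∃ U : Matrix n n ℝ, U * Uᵀ = 1 ∧ Uᵀ * U = 1 ∧
      A = U * diagonal hA.eigenvalues * Uᵀ := by
  refine ⟨(hA.eigenvectorUnitary : Matrix n n ℝ), ?_, ?_, ?_⟩
  · have h := Unitary.mul_star_self_of_mem hA.eigenvectorUnitary.2
    rwa [Matrix.star_eq_conjTranspose, Matrix.conjTranspose_eq_transpose_of_trivial] at h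
  · have h := Unitary.star_mul_self_of_mem hA.eigenvectorUnitary.2
    rwa [Matrix.star_eq_conjTranspose, Matrix.conjTranspose_eq_transpose_of_trivial] at h
  · have h := hA.spectral_theorem
    rw [Unitary.conjStarAlgAut_apply, Matrix.star_eq_conjTranspose,
      Matrix.conjTranspose_eq_transpose_of_trivial] at h
    exact h

/-- The sign matrix of a symmetric matrix. -/
lemma exists_sign {A : Matrix n n ℝ} (hA : A.IsHermitian) :
    ∃ S : Matrix n n ℝ, Sᵀ = S ∧ S * S = 1 ∧ (S * A).trace = ∑ i, |hA.eigenvalues i| := by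
  obtain ⟨U, hU1, hU2, hU3⟩ := exists_diag hA
  set e : n → ℝ := fun i => if 0 ≤ hA.eigenvalues i then 1 else -1 with he
  have hee : diagonal e * diagonal e = (1 : Matrix n n ℝ) := by
    rw [Matrix.diagonal_mul_diagonal, ← Matrix.diagonal_one]
    congr 1
    funext i
    simp only [he]
    split_ifs <;> norm_num
  refine ⟨U * diagonal e * Uᵀ, ?_, ?_, ?_⟩
  · rw [Matrix.transpose_mul, Matrix.transpose_mul, Matrix.transpose_transpose,
      Matrix.diagonal_transpose, Matrix.mul_assoc]
  · calc U * diagonal e * Uᵀ * (U * diagonal e * Uᵀ)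
        = U * diagonal e * (Uᵀ * U) * diagonal e * Uᵀ := by simp only [Matrix.mul_assoc]
      _ = U * (diagonal e * diagonal e) * Uᵀ := by
          rw [hU2, Matrix.mul_one, Matrix.mul_assoc U]
      _ = 1 := by rw [hee, Matrix.mul_one, hU1]
  · have h1 : U * diagonal e * Uᵀ * A = U * (diagonal e * diagonal hA.eigenvalues) * Uᵀ := by
      calc U * diagonal e * Uᵀ * A
          = U * diagonal e * Uᵀ * (U * diagonal hA.eigenvalues * Uᵀ) := by rw [← hU3]
        _ = U * diagonal e * (Uᵀ * U) * diagonal hA.eigenvalues * Uᵀ := by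
            simp only [Matrix.mul_assoc]
        _ = _ := by rw [hU2, Matrix.mul_one, Matrix.mul_assoc U]
    rw [h1, Matrix.trace_mul_comm, ← Matrix.mul_assoc, hU2, Matrix.one_mul,
      Matrix.diagonal_mul_diagonal, Matrix.trace_diagonal]
    refine Finset.sum_congr rfl fun i _ => ?_
    simp only [he]
    split_ifs with h
    · rw [one_mul, abs_of_nonneg h]
    · rw [abs_of_neg (not_le.1 h)]; ring

/-- Main inequality with the case of equality. -/
lemma trace_le {A S : Matrix n n ℝ} (hA : A.IsHermitian) (hS : Sᵀ = S) (hSS : S * S = 1) :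
    (S * A).trace ≤ ∑ i, |hA.eigenvalues i| ∧
      ((S * A).trace = ∑ i, |hA.eigenvalues i| → ∀ i, 0 ≤ (S * A) i i) := by
  obtain ⟨U, hU1, hU2, hU3⟩ := exists_diag hA
  set D := hA.eigenvalues with hD
  set T : Matrix n n ℝ := Uᵀ * S * U with hT
  have hTT : T * Tᵀ = 1 := by
    calc T * Tᵀ = Uᵀ * S * (U * Uᵀ) * Sᵀ * U := by
          rw [hT, Matrix.transpose_mul, Matrix.transpose_mul, Matrix.transpose_transpose]
          simp only [Matrix.mul_assoc]
      _ = Uᵀ * (S * S) * U := by rw [hU1, Matrix.mul_one, hS, Matrix.mul_assoc Uᵀ]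
      _ = 1 := by rw [hSS, Matrix.mul_one, hU2]
  have hTs : Tᵀ = T := by
    rw [hT, Matrix.transpose_mul, Matrix.transpose_mul, Matrix.transpose_transpose, hS,
      Matrix.mul_assoc]
  have hSA : S * A = U * (T * diagonal D) * Uᵀ := by
    calc S * A = (U * Uᵀ) * S * (U * diagonal D * Uᵀ) := by rw [hU1, Matrix.one_mul, ← hU3]
      _ = _ := by rw [hT]; simp only [Matrix.mul_assoc]
  have htr : (S * A).trace = ∑ i, T i i * D i := by
    rw [hSA, Matrix.trace_mul_comm, ← Matrix.mul_assoc, hU2, Matrix.one_mul, Matrix.trace]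
    refine Finset.sum_congr rfl fun i _ => ?_
    rw [Matrix.diag_apply, Matrix.mul_diagonal]
  have hle : ∀ i, T i i * D i ≤ |D i| := fun i => by
    have h1 : |T i i| ≤ 1 := by
      have h2 := orth_entry_le hTT i i
      rw [← sq_abs] at h2
      nlinarith [abs_nonneg (T i i)]
    calc T i i * D i ≤ |T i i * D i| := le_abs_self _
      _ = |T i i| * |D i| := abs_mul _ _
      _ ≤ 1 * |D i| := mul_le_mul_of_nonneg_right h1 (abs_nonneg _)
      _ = |D i| := one_mul _
  refine ⟨?_, fun heq => ?_⟩
  · rw [htr]
    exact Finset.sum_le_sum fun i _ => hle i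
  · rw [htr] at heq
    have h1 : ∀ i, T i i * D i = |D i| := fun i =>
      (Finset.sum_eq_sum_iff_of_le (fun i _ => hle i)).1 heq i (Finset.mem_univ i)
    have h2 : T * diagonal D = diagonal fun i => |D i| := by
      ext i j
      rw [Matrix.mul_diagonal]
      by_cases hij : i = j
      · subst hij
        rw [Matrix.diagonal_apply_eq]
        exact h1 i
      · rw [Matrix.diagonal_apply_ne _ hij]
        by_cases hj : D j = 0
        · rw [hj, mul_zero]
        · have h3 : T j j ^ 2 = 1 := by
            have h4 := h1 j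
            have h5 : (T j j * D j) ^ 2 = D j ^ 2 := by rw [h4, sq_abs]
            rw [mul_pow] at h5
            exact mul_right_cancel₀ (pow_ne_zero 2 hj) (by rw [h5, one_mul])
          have h6 := orth_row_zero hTT h3 hij
          have h7 : T i j = T j i := by
            have := congrFun (congrFun hTs i) j
            rw [Matrix.transpose_apply] at this
            exact this.symm
          rw [h7, h6, zero_mul]
    intro i
    rw [hSA, h2, Matrix.mul_apply]
    refine Finset.sum_nonneg fun j _ => ?_
    rw [Matrix.mul_diagonal, Matrix.transpose_apply]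
    have : U i j * |D j| * U i j = |D j| * (U i j * U i j) := by ring
    rw [this]
    exact mul_nonneg (abs_nonneg _) (mul_self_nonneg _)

end

lemma adj_delete {V : Type*} [Fintype V] [DecidableEq V] (G : SimpleGraph V)
    [DecidableRel G.Adj] {u v : V} (huv : G.Adj u v)
    [DecidableRel (G.deleteEdges {s(u, v)}).Adj] :
    (G.deleteEdges {s(u, v)}).adjMatrix ℝ =
      G.adjMatrix ℝ - (Matrix.single u v 1 + Matrix.single v u 1) := by
  have hne : u ≠ v := huv.ne
  ext i j
  simp only [SimpleGraph.adjMatrix_apply, Matrix.sub_apply, Matrix.add_apply,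
    Matrix.single_apply, SimpleGraph.deleteEdges_adj, Set.mem_singleton_iff]
  by_cases h1 : u = i ∧ v = j
  · obtain ⟨rfl, rfl⟩ := h1
    simp [huv, hne, hne.symm]
  · by_cases h2 : v = i ∧ u = j
    · obtain ⟨rfl, rfl⟩ := h2
      simp [huv.symm, hne, hne.symm, Sym2.eq_swap]
    · have h3 : ¬ s(i, j) = s(u, v) := by
        rw [Sym2.eq_iff]
        rintro (⟨rfl, rfl⟩ | ⟨rfl, rfl⟩)
        · exact h1 ⟨rfl, rfl⟩
        · exact h2 ⟨rfl, rfl⟩
      simp [h1, h2, h3]

/-- **Theorem.** Deleting an edge of a finite graph raises the energy by strictly less than 2;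
in particular it never raises the energy by exactly 2. -/
theorem energy_delete_lt {V : Type*} [Fintype V] [DecidableEq V] (G : SimpleGraph V)
    [DecidableRel G.Adj] {u v : V} (huv : G.Adj u v)
    [DecidableRel (G.deleteEdges {s(u, v)}).Adj] :
    energy (G.deleteEdges {s(u, v)}) < energy G + 2 := by
  obtain ⟨S, hS, hSS, htr⟩ := exists_sign (adj_hermitian (G.deleteEdges {s(u, v)}))
  obtain ⟨hle, heq⟩ := trace_le (adj_hermitian G) hS hSS
  have hST : S * Sᵀ = 1 := by rw [hS, hSS]
  have hSuv : S u v = S v u := by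
    have := congrFun (congrFun hS v) u
    rw [Matrix.transpose_apply] at this
    exact this
  have h1 : energy (G.deleteEdges {s(u, v)}) = (S * G.adjMatrix ℝ).trace - 2 * S u v := by
    rw [energy, ← htr, adj_delete G huv, Matrix.mul_sub, Matrix.mul_add, Matrix.trace_sub,
      Matrix.trace_add, Matrix.trace_mul_single, Matrix.trace_mul_single, hSuv]
    simp only [op_smul_eq_mul, mul_one]
    ring
  have h2 : -1 ≤ S u v := by
    have := orth_entry_le hST u v
    nlinarith
  rw [h1]
  rcases lt_or_eq_of_le hle with h3 | h3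
  · have : (S * G.adjMatrix ℝ).trace < energy G := h3
    linarith
  · have h4 : (S * G.adjMatrix ℝ).trace = energy G := h3
    rcases lt_or_eq_of_le h2 with h5 | h5
    · linarith
    · exfalso
      have h6 := heq h3 u
      have h7 : (S * G.adjMatrix ℝ) u u = -1 := by
        rw [Matrix.mul_apply, Finset.sum_eq_single v]
        · rw [← h5, SimpleGraph.adjMatrix_apply, if_pos huv.symm, mul_one]
        · intro k _ hk
          rw [orth_row_zero hST (j := v) (by rw [← h5]; norm_num) hk, zero_mul]
        · intro h; exact absurd (Finset.mem_univ v) h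
      rw [h7] at h6
      norm_num at h6

/-- **Theorem.** For every finite simple graph and every edge `uv` of it, the energy of the graph
with the edge removed is different from the energy of the graph plus 2 (in fact it is
smaller). -/
theorem result : ∀ (V : Type) [Fintype V] [DecidableEq V] (G : SimpleGraph V)
    [DecidableRel G.Adj] (u v : V) [DecidableRel (G.deleteEdges {s(u, v)}).Adj],
    G.Adj u v →
      energy (G.deleteEdges {s(u, v)}) < energy G + 2 ∧
      energy (G.deleteEdges {s(u, v)}) ≠ energy G + 2 :=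
  fun _ _ _ G _ _ _ _ huv => ⟨energy_delete_lt G huv, (energy_delete_lt G huv).ne⟩

end Pool.Agent.N242.Known.EnergyIncrease
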